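import Pool.Agent.Results.MP_d171e3_nt.PrimeTuplesAllHeights
import Pool.Agent.V1172.PW.Eng

/-!
# Algebraic relations between the logarithms of ALL primes of shrinking residue classes

Let `k ≥ 1`, `δ`, `d`, `D` be given. There is `0 < c ≤ k` such that for every countable family of `ℚ`-spaces `V_s ⊆ ℂ` of
dimension at most `D`, every prime `q` and `σ > 0`, for all vectors `α` of `q`-adic integers outside a set of Hausdorff
dimension at most `(k - c) / σ` (the space `ℤ_q ^ k` has dimension `k`, so `σ < 1` is allowed), all `s` and all large `T`: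
for NO `k`-tuple of primes `p_i ≤ T` with `|p_i - α_i|_q ≤ T ^ (-σ)`, that is, in the residue class of `α` modulo the least
`q ^ f ≥ T ^ σ`, do the logarithms (any branches) satisfy a nontrivial polynomial relation of degree at most `δ` with
coefficients in the `L`-span of `V_s`, `L` any number field of degree at most `d`, of any height.
-/

set_option autoImplicit false

open MeasureTheory

namespace Pool.Agent.Results.MP_d171e3_nt.PrimesInResidueClasses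

open PrimeTuplesAllHeights (Related)

/-- **Theorem.** -/
theorem result (k δ d D : ℕ) (hk : 1 ≤ k) :
    ∃ c : ℝ, 0 < c ∧ c ≤ k ∧ ∀ V : ℕ → Submodule ℚ ℂ,
      (∀ s, Module.Finite ℚ (V s) ∧ Module.finrank ℚ (V s) ≤ D) →
      ∀ (q : ℕ) [Fact q.Prime] (σ : ℝ), 0 < σ →
      ∃ E : Set (Fin k → ℤ_[q]), dimH E ≤ ENNReal.ofReal (((k : ℝ) - c) / σ) ∧
        ∀ α : Fin k → ℤ_[q], α ∉ E → ∀ s : ℕ, ∃ T₀ : ℝ, ∀ T : ℝ, T₀ ≤ T → ∀ p : Fin k → ℕ,
          (∀ i, (p i).Prime ∧ (p i : ℝ) ≤ T ∧ ‖(p i : ℤ_[q]) - α i‖ ≤ T ^ (-σ)) → ¬ Related δ d (V s) p := by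
  obtain ⟨c, hc, C, hC⟩ := PrimeTuplesAllHeights.result k δ d D
  have hk1 : (1 : ℝ) ≤ k := by exact_mod_cast hk
  refine ⟨min c k, lt_min hc (by linarith), min_le_right _ _, fun V hV q hq σ hσ => ?_⟩
  have hs : (0 : ℝ) ≤ (k : ℝ) - min c k := by linarith [min_le_right c (k : ℝ)]
  obtain ⟨E, hE, h⟩ := Pool.Agent.V1172.PW.family q (k := k) (P := Fin k → ℕ) (fun x i => (x i : ℤ))
    (fun s : ℕ => {x : Fin k → ℕ | (∀ i, (x i).Prime) ∧ Related δ d (V s) x}) hs (by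
      intro s ε hε
      refine ⟨|C|, fun X hX => ?_⟩
      have hfl : 1 ≤ ⌊X⌋₊ := Nat.le_floor (by exact_mod_cast hX)
      obtain ⟨hfin, hle⟩ := hC (V s) (hV s).1 (hV s).2 ⌊X⌋₊ hfl
      have hT1 : (1 : ℝ) ≤ (⌊X⌋₊ : ℕ) := by exact_mod_cast hfl
      have hsub : {x : Fin k → ℕ | (∀ i, |(((x i : ℤ)) : ℝ)| ≤ X) ∧ x ∈ {x : Fin k → ℕ | (∀ i, (x i).Prime) ∧
          Related δ d (V s) x}} ⊆ {p : Fin k → ℕ | (∀ i, (p i).Prime ∧ p i ≤ ⌊X⌋₊) ∧ Related δ d (V s) p} := by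
        rintro x ⟨h1, h2, h3⟩
        refine ⟨fun i => ⟨h2 i, Nat.le_floor ?_⟩, h3⟩
        have h4 := h1 i
        rw [Int.cast_natCast, Nat.abs_cast] at h4
        exact h4
      refine ⟨hfin.subset hsub, ?_⟩
      refine ((Nat.cast_le (α := ℝ)).2 (Set.ncard_le_ncard hsub hfin)).trans (hle.trans ?_)
      refine mul_le_mul (le_abs_self C) ?_ (by positivity) (abs_nonneg C)
      calc ((⌊X⌋₊ : ℕ) : ℝ) ^ ((k : ℝ) - c) ≤ ((⌊X⌋₊ : ℕ) : ℝ) ^ ((k : ℝ) - min c k + ε) :=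
            Real.rpow_le_rpow_of_exponent_le hT1 (by linarith [min_le_left c (k : ℝ)])
        _ ≤ X ^ ((k : ℝ) - min c k + ε) :=
            Real.rpow_le_rpow (Nat.cast_nonneg _) (Nat.floor_le (by linarith)) (by linarith))
    hσ
  refine ⟨E, hE, fun α hα s => ?_⟩
  obtain ⟨T₀, hT⟩ := h α hα s
  refine ⟨T₀, fun T hT1 x hx hcon => ?_⟩
  refine hT T hT1 x (fun i => ⟨?_, ?_⟩) ⟨fun i => (hx i).1, hcon⟩
  · rw [Int.cast_natCast, Nat.abs_cast]
    exact (hx i).2.1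
  · rw [Int.cast_natCast]
    exact (hx i).2.2

end Pool.Agent.Results.MP_d171e3_nt.PrimesInResidueClasses
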