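import Pool.Agent.Results.MP_d171e3_nt.PrimesInWindows
import Pool.Agent.V1178.PW.Cells

/-!
# Logarithms of the primes near the powers of almost every real number

For all `q`, `k`, `D`, `δ` there is `0 < κ ≤ 1` with the following property. Let `w_1, …, w_q` be complex numbers and
`ν n / log n → ∞`, for example `ν n = n`. For almost every real `z > 1`, all `θ < κ` and all large `n`, every relation of
degree at most `δ` between the logarithms of any `k` distinct primes `p` with `|p - z ^ (ν n)| ≤ z ^ (θ ν n)`, with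
coefficients which are polynomials in `w_1, …, w_q` over a number field of degree at most `D`, is trivial.
There are no exceptional primes.
-/

set_option autoImplicit false

namespace Pool.Agent.Results.MP_d171e3_nt.PrimesNearPowers

open Filter Topology MeasureTheory Pool.Agent.V11001.KM Pool.Agent.V1178.PW

/-- Every polynomial of degree at most `δ` over a number field `K` of degree at most `D` which vanishes at
`w_1, …, w_q, log p_1, …, log p_k` is zero after the substitution of `w_1, …, w_q`. -/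
def OnlyTrivial {q k : ℕ} (D δ : ℕ) (w : Fin q → ℂ) (p : Fin k → ℕ) : Prop :=
  ∀ K : IntermediateField ℚ ℂ, FiniteDimensional ℚ K → Module.finrank ℚ K ≤ D →
    ∀ P : MvPolynomial (Fin q ⊕ Fin k) K, P.totalDegree ≤ δ →
      MvPolynomial.aeval (Sum.elim w fun i => ((Real.log (p i) : ℝ) : ℂ)) P = 0 →
      MvPolynomial.aeval (Sum.elim (fun j => MvPolynomial.C (w j)) MvPolynomial.X) P = (0 : MvPolynomial (Fin k) ℂ)

/-- No exceptions near `β z ^ (ν n)`: for any `k` distinct primes there are only trivial relations. -/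
def Free {q : ℕ} (k D δ : ℕ) (w : Fin q → ℂ) (ν : ℕ → ℝ) (θ β z : ℝ) (n : ℕ) : Prop :=
  ∀ p : Fin k → ℕ, Function.Injective p → (∀ i, (p i).Prime ∧ |(p i : ℝ) - β * z ^ ν n| ≤ z ^ (θ * ν n)) →
    OnlyTrivial D δ w p

/-- outside of a set of small dimension -/
lemma dimension (q k D δ : ℕ) : ∃ κ : ℝ, 0 < κ ∧ κ ≤ 1 ∧ ∀ w : Fin q → ℂ, ∀ ν : ℕ → ℝ, Fast ν → ∀ β : ℝ, 0 < β →
    ∀ θ : ℝ, θ < 1 → ∃ E : Set ℝ, dimH E ≤ ENNReal.ofReal ((1 - κ) / (1 - θ)) ∧ ∀ z : ℝ, 1 < z → z ∉ E →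
      ∃ n₀ : ℕ, ∀ n : ℕ, n₀ ≤ n → Free k D δ w ν θ β z n := by
  classical
  obtain ⟨E₀, hE₀⟩ := PrimesInWindows.result q k D δ
  obtain ⟨e, he⟩ : ∃ e, e = 2 * E₀ + 2 := ⟨_, rfl⟩
  have he2 : 2 ≤ e := by omega
  have he0 : (0 : ℝ) < e := by exact_mod_cast (by omega : 0 < e)
  have hκ1 : 1 / (e : ℝ) ≤ 1 := by
    rw [div_le_one he0]
    exact_mod_cast (by omega : 1 ≤ e)
  refine ⟨1 / (e : ℝ), by positivity, hκ1, fun w ν hν β hβ θ hθ => ?_⟩
  have hex : ∀ N H : ℕ, ∃ S : Finset ℕ, S.card ≤ q + 1 ∧ ((H + 2) ^ E₀ ≤ N →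
      ∀ p : Fin k → ℕ, Function.Injective p → (∀ i, (p i).Prime ∧ N < p i ∧ p i ≤ N + H ∧ p i ∉ S) →
        OnlyTrivial D δ w p) := by
    intro N H
    by_cases h : (H + 2) ^ E₀ ≤ N
    · obtain ⟨S, hS, h1⟩ := hE₀ N H h w
      exact ⟨S, hS, fun _ => h1⟩
    · exact ⟨∅, by simp, fun h' => absurd h' h⟩
  choose S hS hS2 using hex
  obtain ⟨C, hC⟩ := Pool.Agent.V1178.PW.count he2 (S := S) hS
  obtain ⟨E, hE1, hE2⟩ := powers (G e S) (fun t : ℕ => (t : ℝ)) hν hβ (s := 1 - 1 / (e : ℝ)) (by linarith) hθ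
    (fun ε hε => ⟨|C|, fun X hX => ⟨(hC X hX).1, by
      refine (hC X hX).2.trans ?_
      refine mul_le_mul (le_abs_self C) (Real.rpow_le_rpow_of_exponent_le hX (by linarith)) (by positivity)
        (abs_nonneg C)⟩⟩)
  refine ⟨E, hE1, fun z hz hzE => ?_⟩
  obtain ⟨n₀, hn₀⟩ := hE2 z hz hzE
  refine ⟨n₀, fun n hn p hp hpp => ?_⟩
  rcases Nat.eq_zero_or_pos k with hk | hk
  · subst hk
    exact hS2 (2 ^ E₀) 0 (by simp) p hp (fun i => i.elim0)
  · have : Nonempty (Fin k) := ⟨⟨0, hk⟩⟩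
    obtain ⟨a, b, ha, hab⟩ := one_cell he2 (hn₀ n hn) p (fun i => (hpp i).2)
    refine hS2 (a ^ e + b * a) a ?_ p hp (fun i => ⟨(hpp i).1, hab i⟩)
    have h1 : a + 2 ≤ a ^ 2 := by nlinarith
    calc (a + 2) ^ E₀ ≤ (a ^ 2) ^ E₀ := Nat.pow_le_pow_left h1 _
      _ = a ^ (2 * E₀) := by rw [← pow_mul]
      _ ≤ a ^ e := Nat.pow_le_pow_right (by omega) (by omega)
      _ ≤ a ^ e + b * a := Nat.le_add_right _ _

lemma Free.mono {q : ℕ} {k D δ : ℕ} {w : Fin q → ℂ} {ν : ℕ → ℝ} {θ θ' β z : ℝ} {n : ℕ} (hz : 1 < z)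
    (hν : 0 ≤ ν n) (h : θ ≤ θ') (hf : Free k D δ w ν θ' β z n) : Free k D δ w ν θ β z n := by
  intro p hp hpp
  refine hf p hp fun i => ⟨(hpp i).1, (hpp i).2.trans ?_⟩
  exact Real.rpow_le_rpow_of_exponent_le hz.le (mul_le_mul_of_nonneg_right h hν)

/-- **Theorem.** For each `q` there are numbers `0 < κ(k, D, δ) ≤ 1` such that for all complex `w_1, …, w_q`, all `ν` with
`ν n / log n → ∞` and all countable sets `B` of reals: (1) for `k, D, δ` and `θ < 1` there is a set `E` of Hausdorff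
dimension at most `(1 - κ(k, D, δ)) / (1 - θ)` such that for each `z > 1` outside `E`, each positive `β` in `B` and
all large `n`, for any `k` distinct primes `p` with `|p - β z ^ (ν n)| ≤ z ^ (θ ν n)` there are only trivial relations
of degree at most `δ` between `w_1, …, w_q` and the logarithms of these primes over number fields of degree at most `D`;
(2) for almost every `z > 1` this holds for all `k, D, δ`, all `θ < κ(k, D, δ)` and all positive `β` in `B`. -/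
theorem result : ∀ q : ℕ, ∃ κ : ℕ → ℕ → ℕ → ℝ, (∀ k D δ, 0 < κ k D δ ∧ κ k D δ ≤ 1) ∧
    ∀ w : Fin q → ℂ, ∀ ν : ℕ → ℝ, Fast ν → ∀ B : Set ℝ, B.Countable →
    (∀ k D δ : ℕ, ∀ θ : ℝ, θ < 1 → ∃ E : Set ℝ, dimH E ≤ ENNReal.ofReal ((1 - κ k D δ) / (1 - θ)) ∧
      ∀ z : ℝ, 1 < z → z ∉ E → ∀ β ∈ B, 0 < β → ∃ n₀ : ℕ, ∀ n : ℕ, n₀ ≤ n → Free k D δ w ν θ β z n) ∧
    (∀ᵐ z : ℝ, 1 < z → ∀ k D δ : ℕ, ∀ θ : ℝ, θ < κ k D δ → ∀ β ∈ B, 0 < β →
      ∃ n₀ : ℕ, ∀ n : ℕ, n₀ ≤ n → Free k D δ w ν θ β z n) := by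
  intro q
  choose κ hκ0 hκ1 hκ using dimension q
  refine ⟨κ, fun k D δ => ⟨hκ0 k D δ, hκ1 k D δ⟩, fun w ν hν B hB => ?_⟩
  have hcB : Countable B := hB.to_subtype
  have h1 : ∀ k D δ : ℕ, ∀ θ : ℝ, θ < 1 → ∃ E : Set ℝ, dimH E ≤ ENNReal.ofReal ((1 - κ k D δ) / (1 - θ)) ∧
      ∀ z : ℝ, 1 < z → z ∉ E → ∀ β ∈ B, 0 < β → ∃ n₀ : ℕ, ∀ n : ℕ, n₀ ≤ n → Free k D δ w ν θ β z n := by
    intro k D δ θ hθ
    have h := fun β : {β : B // 0 < (β : ℝ)} => hκ k D δ w ν hν β β.2 θ hθ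
    choose E hE1 hE2 using h
    refine ⟨⋃ β, E β, ?_, fun z hz hzE β hβ hβ0 => ?_⟩
    · rw [dimH_iUnion]
      exact iSup_le hE1
    · exact hE2 ⟨⟨β, hβ⟩, hβ0⟩ z hz fun h => hzE (Set.mem_iUnion.2 ⟨_, h⟩)
  refine ⟨h1, ?_⟩
  obtain ⟨n₁, hn₁⟩ := ((tendsto_lam hν).eventually_ge_atTop 0).exists_forall_of_atTop
  have h2 : ∀ x : ℕ × ℕ × ℕ × ℚ, ∀ᵐ z : ℝ, (x.2.2.2 : ℝ) < κ x.1 x.2.1 x.2.2.1 → 1 < z → ∀ β ∈ B, 0 < β →
      ∃ n₀ : ℕ, ∀ n : ℕ, n₀ ≤ n → Free x.1 x.2.1 x.2.2.1 w ν (x.2.2.2 : ℝ) β z n := by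
    rintro ⟨k, D, δ, t⟩
    simp only
    by_cases ht : (t : ℝ) < κ k D δ
    · obtain ⟨E, hE1, hE2⟩ := h1 k D δ t (ht.trans_le (hκ1 k D δ))
      have hnull : volume E = 0 := by
        rw [← hausdorffMeasure_real]
        refine hausdorffMeasure_of_dimH_lt (d := 1) ?_
        refine hE1.trans_lt ?_
        have g1 : (1 - κ k D δ) / (1 - (t : ℝ)) < 1 := by
          have := hκ1 k D δ
          rw [div_lt_one (by linarith)]
          linarith
        have g2 := (ENNReal.ofReal_lt_one).2 g1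
        simpa using g2
      have hae : ∀ᵐ z : ℝ, z ∉ E := compl_mem_ae_iff.2 hnull
      filter_upwards [hae] with z hz _ hz1 β hβ hβ0
      exact hE2 z hz1 hz β hβ hβ0
    · exact Eventually.of_forall fun z h => absurd h ht
  filter_upwards [ae_all_iff.2 h2] with z hz hz1 k D δ θ hθ β hβ hβ0
  obtain ⟨t, ht1, ht2⟩ := exists_rat_btwn hθ
  obtain ⟨n₀, hn₀⟩ := hz (k, D, δ, t) ht2 hz1 β hβ hβ0
  refine ⟨max n₀ n₁, fun n hn => ?_⟩
  exact (hn₀ n ((le_max_left _ _).trans hn)).mono hz1 (hn₁ n ((le_max_right _ _).trans hn)) ht1.le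

end Pool.Agent.Results.MP_d171e3_nt.PrimesNearPowers
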