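import Pool.Agent.Results.MP_d171e3_nt.PrimesInWindows
import Pool.Agent.Results.MP_d171e3_nt.PrimeTuplesAllHeights
import Pool.Agent.V11286.NE.Exc
import Pool.Agent.V11286.NE.Tup
import Pool.Agent.V11286.NE.Vol

/-!
# Logarithms of all primes near the numbers `α v_n`: no exceptions

Let `v ≥ 1` be a sequence with exponent of convergence at most `τ` (for `v_n = (n + 1) ^ a` this is `1 / a`, for `v_n = a ^ n`
it is `0`).

(1) For all `q`, `k`, `D`, `δ` there is `b > 0` such that for all `θ ≤ b` and all `α > 0` outside a set of Hausdorff dimension at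
most `(1 - b + τ) / (1 - θ)` (smaller than `1` if `τ + θ < b`), for large `n` and ALL distinct primes `p_1, …, p_k` with
`|p_i - α v_n| ≤ v_n ^ θ` every relation of degree at most `δ` between `log p_1, …, log p_k`, with coefficients which are
polynomials in given numbers `w_1, …, w_q` over a number field of degree at most `D` (of any height) is trivial. The starting
result `PrimesInWindows` has up to `q + 1` exceptional primes in every window.

(2) For almost all `(α_1, …, α_k)` (`τ = 0`), all degrees `δ`, `d` there is `θ > 0` such that for large `n` ALL `k`-tuples of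
primes with `|p_i - α_i v_n| ≤ v_n ^ θ` satisfy no relation of degree at most `δ` over a number field of degree at most `d`,
and no relation with coefficients in the spans of the members of a sequence of finite-dimensional spaces. The starting result
`PrimeTuplesAllHeights` counts exceptional tuples up to `T`.
-/

set_option autoImplicit false

open Finset Filter Topology MeasureTheory

namespace Pool.Agent.Results.MP_d171e3_nt.PrimesNearSequences

/-- the exponent of convergence of the sequence `v` is at most `τ` -/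
def ExpLe (v : ℕ → ℝ) (τ : ℝ) : Prop := ∀ t : ℝ, τ < t → Summable (fun n : ℕ => (v n) ^ (-t))

/-- Every polynomial `P` of degree at most `δ` over a number field `K` of degree at most `D` which vanishes at
`w_1, …, w_q, log p_1, …, log p_k` is zero after the substitution of `w_1, …, w_q`. -/
def OnlyTrivial {q k : ℕ} (D δ : ℕ) (w : Fin q → ℂ) (p : Fin k → ℕ) : Prop :=
  ∀ K : IntermediateField ℚ ℂ, FiniteDimensional ℚ K → Module.finrank ℚ K ≤ D →
    ∀ P : MvPolynomial (Fin q ⊕ Fin k) K, P.totalDegree ≤ δ →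
      MvPolynomial.aeval (Sum.elim w fun i => ((Real.log (p i) : ℝ) : ℂ)) P = 0 →
      MvPolynomial.aeval (Sum.elim (fun j => MvPolynomial.C (w j)) MvPolynomial.X) P = (0 : MvPolynomial (Fin k) ℂ)

/-- For some choice of the logarithms of the numbers `p_i` and some number field `L` of degree at most `d`, some nonzero
polynomial of total degree at most `δ` with coefficients in the `L`-span of `V` vanishes at them. -/
def Related {k : ℕ} (δ d : ℕ) (V : Submodule ℚ ℂ) (p : Fin k → ℕ) : Prop :=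
  ∃ l : Fin k → ℂ, (∀ i, Complex.exp (l i) = p i) ∧
    ∃ L : IntermediateField ℚ ℂ, FiniteDimensional ℚ L ∧ Module.finrank ℚ L ≤ d ∧
      ∃ P : MvPolynomial (Fin k) ℂ, P ≠ 0 ∧ P.totalDegree ≤ δ ∧
        (∀ s, P.coeff s ∈ Submodule.span L (V : Set ℂ)) ∧ MvPolynomial.aeval l P = 0

/-- the windows `[m, m + m ^ c]` are short enough -/
lemma short (E : ℕ) : ∃ m₀ : ℕ, ∀ m : ℕ, m₀ ≤ m → (⌊(m : ℝ) ^ (1 / ((E : ℝ) + 2))⌋₊ + 1 + 2) ^ E ≤ m - 1 := by
  have hE : (0 : ℝ) < (E : ℝ) + 2 := by positivity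
  have t1 : Tendsto (fun m : ℕ => (m : ℝ) ^ (2 / ((E : ℝ) + 2))) atTop atTop :=
    (tendsto_rpow_atTop (by positivity)).comp tendsto_natCast_atTop_atTop
  obtain ⟨m₀, hm₀⟩ := eventually_atTop.1 (t1.eventually_ge_atTop (2 * 4 ^ E))
  refine ⟨max m₀ 2, fun m hm => ?_⟩
  have h1 := hm₀ m (le_of_max_le_left hm)
  have hm2 : 2 ≤ m := le_of_max_le_right hm
  have hmr : (2 : ℝ) ≤ m := by exact_mod_cast hm2
  have hm0 : (0 : ℝ) < m := by linarith
  set Y : ℝ := (m : ℝ) ^ (1 / ((E : ℝ) + 2)) with hY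
  have hY1 : 1 ≤ Y := Real.one_le_rpow (by linarith) (by positivity)
  have h2 : ((⌊Y⌋₊ + 1 + 2 : ℕ) : ℝ) ≤ 4 * Y := by
    push_cast
    have := Nat.floor_le (show 0 ≤ Y by linarith)
    linarith
  have h3 : ((⌊Y⌋₊ + 1 + 2 : ℕ) : ℝ) ^ E ≤ (4 * Y) ^ E := pow_le_pow_left₀ (Nat.cast_nonneg _) h2 E
  have h4 : Y ^ E * (m : ℝ) ^ (2 / ((E : ℝ) + 2)) = m := by
    rw [hY, ← Real.rpow_natCast, ← Real.rpow_mul hm0.le, ← Real.rpow_add hm0]
    have : 1 / ((E : ℝ) + 2) * (E : ℝ) + 2 / ((E : ℝ) + 2) = 1 := by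
      field_simp
    rw [this, Real.rpow_one]
  have hYE : 0 < Y ^ E := by positivity
  have h5 : (4 * Y) ^ E * 2 ≤ m := by
    rw [mul_pow, ← h4]
    nlinarith
  have h6 : (((⌊Y⌋₊ + 1 + 2) ^ E : ℕ) : ℝ) ≤ ((m - 1 : ℕ) : ℝ) := by
    rw [Nat.cast_pow, Nat.cast_sub (by omega)]
    push_cast at h3 ⊢
    have h7 : ((⌊Y⌋₊ : ℝ) + 1 + 2) ^ E * 2 ≤ m := by linarith
    linarith
  exact_mod_cast h6

lemma one (q k D δ : ℕ) : ∃ b : ℝ, 0 < b ∧ b < 1 ∧ ∀ (w : Fin q → ℂ) (v : ℕ → ℝ) (τ θ : ℝ), (∀ n, 1 ≤ v n) → 0 ≤ τ →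
    ExpLe v τ → θ ≤ b → ∃ E : Set ℝ, dimH E ≤ ENNReal.ofReal ((1 - b + τ) / (1 - θ)) ∧ ∀ α : ℝ, 0 < α → α ∉ E →
      ∃ n₀ : ℕ, ∀ n : ℕ, n₀ ≤ n → ∀ p : Fin k → ℕ, Function.Injective p →
        (∀ i, (p i).Prime ∧ |(p i : ℝ) - α * v n| ≤ (v n) ^ θ) → OnlyTrivial D δ w p := by
  classical
  obtain ⟨E, hE⟩ := PrimesInWindows.result q k D δ
  obtain ⟨m₀, hm₀⟩ := short E
  set c : ℝ := 1 / ((E : ℝ) + 2) with hc
  have hc0 : 0 < c := by positivity
  have hc1 : c ≤ 1 / 2 := by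
    rw [hc, div_le_div_iff₀ (by positivity) (by norm_num)]
    have : (0 : ℝ) ≤ E := Nat.cast_nonneg E
    linarith
  refine ⟨c / 2, by positivity, by linarith, fun w v τ θ hv hτ hvE hθ => ?_⟩
  have hch : ∀ m : ℕ, ∃ S : Finset ℕ, S.card ≤ q + 1 ∧ (m₀ ≤ m → ∀ p : Fin k → ℕ, Function.Injective p →
      (∀ i, (p i).Prime ∧ m - 1 < p i ∧ p i ≤ m - 1 + (⌊(m : ℝ) ^ c⌋₊ + 1) ∧ p i ∉ S) → OnlyTrivial D δ w p) := by
    intro m
    by_cases h : m₀ ≤ m
    · obtain ⟨S, hS, h2⟩ := hE (m - 1) (⌊(m : ℝ) ^ c⌋₊ + 1) (hm₀ m h) w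
      exact ⟨S, hS, fun _ p hp hpS => h2 p hp hpS⟩
    · exact ⟨∅, by simp, fun h' => absurd h' h⟩
  choose S hS1 hS2 using hch
  obtain ⟨G, hG1, hG2⟩ := Pool.Agent.V11286.NE.no_exc (q + 1) (c := c) (b := c / 2) (by positivity) (by linarith)
    (by linarith) S hS1 hv hτ hvE hθ
  refine ⟨G, hG1, fun α hα hαG => ?_⟩
  obtain ⟨n₀, hn⟩ := hG2 α hα hαG (max m₀ 1)
  refine ⟨n₀, fun n hn0 p hp hpw => ?_⟩
  obtain ⟨m, hm, hmt⟩ := hn n hn0
  refine hS2 m (le_of_max_le_left hm) p hp fun i => ?_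
  obtain ⟨hp1, hp2⟩ := hpw i
  obtain ⟨h1, h2, h3⟩ := hmt (p i) hp2
  have hm1 : 1 ≤ m := le_of_max_le_right hm
  refine ⟨hp1, by omega, ?_, h3⟩
  have h4 : (p i : ℝ) < m + (⌊(m : ℝ) ^ c⌋₊ + 1) := by
    have := Nat.lt_floor_add_one ((m : ℝ) ^ c)
    linarith
  have h5 : p i < m + (⌊(m : ℝ) ^ c⌋₊ + 1) := by exact_mod_cast h4
  omega

/-- **Theorem.** (1) For all `q`, `k`, `D`, `δ` there is `0 < b < 1` such that for every sequence `v ≥ 1` of exponent of
convergence at most `τ ≥ 0`, every `θ ≤ b` and every sequence `w_0, w_1, …` of vectors of `ℂ ^ q` there is a set `E` of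
Hausdorff dimension at most `(1 - b + τ) / (1 - θ)` such that for all `α > 0` outside `E`, all `i` and all large `n`, for ALL
distinct primes `p_1, …, p_k` with `|p_j - α v_n| ≤ v_n ^ θ` every polynomial of degree at most `δ` over a number field of
degree at most `D` which vanishes at the coordinates of `w_i` and at `log p_1, …, log p_k` is zero after the substitution of
the coordinates of `w_i`.
(2) Let `v ≥ 1` be a sequence of exponent of convergence `0`, `k ≥ 1` and `V_0, V_1, …` finite-dimensional `ℚ`-subspaces of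
`ℂ`. For almost all `α` in `ℝ ^ k`, all `δ`, `d` and `i` there are `θ > 0` and `n₀` such that for all `n ≥ n₀` no `k`-tuple of
primes with `|p_j - α_j v_n| ≤ v_n ^ θ` is related: their logarithms (any choice) satisfy no nontrivial relation of total
degree at most `δ` with coefficients in the `L`-span of `V_i` for a number field `L` of degree at most `d`.
(3) The sequences `v_n = (n + 1) ^ a` and `v_n = a ^ n` have exponent of convergence at most `1 / a` and `0`. -/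
theorem result :
    (∀ q k D δ : ℕ, ∃ b : ℝ, 0 < b ∧ b < 1 ∧ ∀ (v : ℕ → ℝ) (τ θ : ℝ), (∀ n, 1 ≤ v n) → 0 ≤ τ → ExpLe v τ → θ ≤ b →
      ∀ w : ℕ → Fin q → ℂ, ∃ E : Set ℝ, dimH E ≤ ENNReal.ofReal ((1 - b + τ) / (1 - θ)) ∧
        ∀ α : ℝ, 0 < α → α ∉ E → ∀ i : ℕ, ∃ n₀ : ℕ, ∀ n : ℕ, n₀ ≤ n → ∀ p : Fin k → ℕ, Function.Injective p →
          (∀ j, (p j).Prime ∧ |(p j : ℝ) - α * v n| ≤ (v n) ^ θ) → OnlyTrivial D δ (w i) p) ∧
    (∀ v : ℕ → ℝ, (∀ n, 1 ≤ v n) → ExpLe v 0 → ∀ (k : ℕ), 1 ≤ k → ∀ V : ℕ → Submodule ℚ ℂ,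
      (∀ i, Module.Finite ℚ (V i)) → ∀ᵐ α : Fin k → ℝ, ∀ δ d i : ℕ, ∃ θ : ℝ, 0 < θ ∧ ∃ n₀ : ℕ, ∀ n : ℕ, n₀ ≤ n →
        ∀ p : Fin k → ℕ, (∀ j, (p j).Prime ∧ |(p j : ℝ) - α j * v n| ≤ (v n) ^ θ) → ¬ Related δ d (V i) p) ∧
    (∀ a : ℝ, 0 < a → ExpLe (fun n : ℕ => ((n : ℝ) + 1) ^ a) (1 / a)) ∧
    (∀ a : ℝ, 1 < a → ExpLe (fun n : ℕ => a ^ n) 0) := by
  classical
  refine ⟨fun q k D δ => ?_, fun v hv hvE k hk V hV => ?_, fun a ha => Pool.Agent.Y854.GM.expLe_pow a ha,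
    fun a ha => Pool.Agent.Y854.GM.expLe_geom a ha⟩
  · obtain ⟨b, hb0, hb1, h⟩ := one q k D δ
    refine ⟨b, hb0, hb1, fun v τ θ hv hτ hvE hθ w => ?_⟩
    choose E hE1 hE2 using fun i : ℕ => h (w i) v τ θ hv hτ hvE hθ
    refine ⟨⋃ i, E i, ?_, fun α hα hαE i => ?_⟩
    · rw [dimH_iUnion]
      exact iSup_le hE1
    · exact hE2 i α hα (fun h => hαE (Set.mem_iUnion.2 ⟨i, h⟩))
  · have hall : ∀ δ d i : ℕ, ∀ᵐ α : Fin k → ℝ, ∃ θ : ℝ, 0 < θ ∧ ∃ n₀ : ℕ, ∀ n : ℕ, n₀ ≤ n →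
        ∀ p : Fin k → ℕ, (∀ j, (p j).Prime ∧ |(p j : ℝ) - α j * v n| ≤ (v n) ^ θ) → ¬ Related δ d (V i) p := by
      intro δ d i
      obtain ⟨c, hc, C, h⟩ := PrimeTuplesAllHeights.result k δ d (Module.finrank ℚ (V i))
      have hk0 : (0 : ℝ) < k := by exact_mod_cast hk
      have hk1 : (1 : ℝ) ≤ k := by exact_mod_cast hk
      have hc' : 0 < min c 1 := lt_min hc one_pos
      have hθ : (k : ℝ) * (min c 1 / (2 * k)) < min c 1 := by
        have : (k : ℝ) * (min c 1 / (2 * k)) = min c 1 / 2 := by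
          field_simp
        rw [this]
        linarith
      have hθ1 : min c 1 / (2 * (k : ℝ)) ≤ 1 := by
        rw [div_le_one (by positivity)]
        have := min_le_right c 1
        linarith
      have hae := Pool.Agent.V11286.NE.ae_tuples (k := k)
        {p : Fin k → ℕ | (∀ j, (p j).Prime) ∧ Related δ d (V i) p} (c := min c 1) (C := C) (by
          intro T hT
          obtain ⟨hf, hle⟩ := h (V i) (hV i) le_rfl T hT
          have hT1 : (1 : ℝ) ≤ T := by exact_mod_cast hT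
          have hC : 0 ≤ C := by
            have h1 : 0 ≤ C * (T : ℝ) ^ ((k : ℝ) - c) := (Nat.cast_nonneg _).trans hle
            have h2 : 0 < (T : ℝ) ^ ((k : ℝ) - c) := by positivity
            exact nonneg_of_mul_nonneg_left h1 h2
          refine le_trans ?_ (hle.trans (mul_le_mul_of_nonneg_left (Real.rpow_le_rpow_of_exponent_le hT1 ?_) hC))
          · refine Nat.cast_le.2 (Set.ncard_le_ncard ?_ hf)
            rintro p ⟨h1, h2, h3⟩
            exact ⟨fun j => ⟨h2 j, h1 j⟩, h3⟩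
          · linarith [min_le_left c 1])
        ((min_le_right c 1).trans hk1) hv hvE hθ1 hθ
      filter_upwards [hae] with α hα
      obtain ⟨n₀, hn⟩ := hα
      refine ⟨min c 1 / (2 * k), by positivity, n₀, fun n hn0 p hp hR => ?_⟩
      exact hn n hn0 p (fun j => (hp j).2) ⟨fun j => (hp j).1, hR⟩
    filter_upwards [ae_all_iff.2 fun δ : ℕ => ae_all_iff.2 fun d : ℕ => ae_all_iff.2 fun i : ℕ => hall δ d i] with α hα
    exact hα

end Pool.Agent.Results.MP_d171e3_nt.PrimesNearSequences
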